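import Pool.Agent.Lib.MP_07d99b_al.Sqf

set_option autoImplicit false

namespace Pool.Agent.Results.MP_07d99b_al.SquarefreeExample

open Pool.Agent.Lib.MP_07d99b_al

/-- For every `n ≥ 5` there is a surjective polynomial map `ℝⁿ → ℝⁿ` satisfying (a)-(e) in which,
moreover, every monomial that occurs is squarefree. -/
theorem result : ∀ n : ℕ, 5 ≤ n → ∃ p : Fin n → MvPolynomial (Fin n) ℝ,
    CharPolyType p ∧ SqfreeMonomials p ∧ Function.Surjective (polyMap p) :=
  exists_sqf

end Pool.Agent.Results.MP_07d99b_al.SquarefreeExample
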