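import Pool.Agent.Lib.MP_07d99b_al.Final3

set_option autoImplicit false

namespace Pool.Agent.Results.MP_07d99b_al.SurjectiveIff

open Pool.Agent.Lib.MP_07d99b_al

/-- A surjective polynomial map `ℝⁿ → ℝⁿ` satisfying (a)-(e) exists exactly when `n ≥ 3`. -/
theorem result : ∀ n : ℕ, (∃ p : Fin n → MvPolynomial (Fin n) ℝ,
    CharPolyType p ∧ Function.Surjective (polyMap p)) ↔ 3 ≤ n :=
  exists_iff

end Pool.Agent.Results.MP_07d99b_al.SurjectiveIff
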